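import Pool.Agent.Lib.MP_b5021c_nt.IfaceKV

/-!
# Board b5, K EVEN without levels: row KV_VSR (PaperKV 6.2)

`R` of type (0,0) for the mutual pair `(S, S1)`, with a mutual partner `R1`: the double closing
`w^S = eta S tA`, `w^R = eta R tA` is drop free.
-/

set_option linter.unusedSectionVars false

namespace Pool.Agent.B5.KV.H09

open scoped LaurentPolynomial
open Pool.Agent.B5

section

variable {P L : Type} [Fintype P] [DecidableEq P] [AddCommGroup L] [Module.Free ℤ L]
  [Module.Finite ℤ L] {phi : L →+ (P → ℤ)} {D : AO ℤ L}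

theorem tA_val : ((tA : (RO ℤ)ˣ) : RO ℤ) = -LaurentPolynomial.T (-1) := by
  unfold tA
  rw [H40.uT_val]
  simp

theorem one_sub_tA : (1 : RO ℤ) - (tA : RO ℤ) ≠ 0 := by
  rw [tA_val]
  intro h
  have h2 : (LaurentPolynomial.T (-1) : RO ℤ) = -LaurentPolynomial.T 0 := by
    rw [LaurentPolynomial.T_zero]
    linear_combination h
  have h1 := congrArg (fun p : RO ℤ => p.coeff (-1)) h2
  simp only [AddMonoidAlgebra.coeff_neg, Finsupp.neg_apply, LaurentPolynomial.T_apply] at h1
  norm_num at h1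

/-- A functional which vanishes on the support is zero. -/
theorem eq_zero_of_supp (hspn : rk (supp D) = Module.finrank ℤ L) {nu : L →+ ℤ}
    (h : ∀ a ∈ supp D, nu a = 0) : nu = 0 := by
  have h1 : Submodule.span ℤ (supp D) ≤ LinearMap.ker nu.toIntLinearMap := by
    rw [Submodule.span_le]
    intro a ha
    exact h a ha
  have h2 : rk (supp D) ≤ Module.finrank ℤ (LinearMap.ker nu.toIntLinearMap) :=
    Submodule.finrank_mono h1
  rw [hspn] at h2
  have h3 := Submodule.finrank_quotient_add_finrank (LinearMap.ker nu.toIntLinearMap)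
  have h3' : Module.finrank ℤ (L ⧸ LinearMap.ker nu.toIntLinearMap) =
      Module.finrank ℤ (LinearMap.range nu.toIntLinearMap) :=
    LinearEquiv.finrank_eq (LinearMap.quotKerEquivRange nu.toIntLinearMap)
  have h4 : Module.finrank ℤ (LinearMap.range nu.toIntLinearMap) = 0 := by omega
  have h5 : LinearMap.range nu.toIntLinearMap = ⊥ := Submodule.finrank_eq_zero.mp h4
  ext x
  have h6 : nu.toIntLinearMap x ∈ LinearMap.range nu.toIntLinearMap := ⟨x, rfl⟩
  rw [h5] at h6
  exact h6

/-- A functional which vanishes on `S` and on the exponents of `V_S` vanishes on `U_S`. -/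
theorem us_zero {S : L} {e : (RO ℤ)ˣ} {nu : L →+ ℤ} (h0 : nu S = 0)
    (h : ∀ a, vco e S D a ≠ 0 → nu a = 0) : ∀ a ∈ US e S D, nu a = 0 := by
  intro a ha
  obtain ⟨n, hn, hm⟩ := ha
  have h1 : Submodule.span ℤ (insert S {a : L | vco e S D a ≠ 0}) ≤
      LinearMap.ker nu.toIntLinearMap := by
    rw [Submodule.span_le]
    rintro x (rfl | hx)
    · exact h0
    · exact h x hx
  have h2 : nu (n • a) = 0 := h1 hm
  rw [map_zsmul, smul_eq_mul] at h2
  exact (mul_eq_zero.mp h2).resolve_left hn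

/-- The coefficient of `V_R` at an exponent without the port `i` of `R`. -/
theorem vco_port (hV : VcoS) (inj : Function.Injective phi) (bin : ∀ a ∈ supp D, Bin phi a)
    {R : L} (hRb : Bin phi R) (hR0 : R ≠ 0) {i : P} (hi : phi R i = 1) (e : (RO ℤ)ˣ) {b : L}
    (hb : phi b i = 0) : vco e R D b = D.coeff b + (e : RO ℤ) * D.coeff (b + R) := by
  obtain ⟨v1, v2, v3, v4, -⟩ := hV ℤ P L phi D R e inj bin hRb hR0
  by_cases hdis : ∀ p, phi b p = 0 ∨ phi R p = 0
  · exact v3 b hdis
  · push Not at hdis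
    obtain ⟨p, hp1, hp2⟩ := hdis
    have hp3 : phi R p = 1 := (hRb p).resolve_left hp2
    by_cases h1 : D.coeff b = 0
    · by_cases h2 : D.coeff (b + R) = 0
      · rw [h1, h2, mul_zero, add_zero]
        by_contra hne
        obtain ⟨k, hk⟩ := v2 b hne
        have h3 := bin _ hk i
        rw [map_add, map_zsmul, Pi.add_apply, Pi.smul_apply, hb, hi] at h3
        rcases h3 with h3 | h3
        · have h4 : k = 0 := by simpa using h3
          rw [h4, zero_smul, add_zero] at hk
          exact hk h1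
        · have h4 : k = 1 := by simpa using h3
          rw [h4, one_smul] at hk
          exact hk h2
      · have h3 : Bin phi (b + R) := bin _ h2
        have h4 := h3 p
        rw [map_add, Pi.add_apply, hp3] at h4
        have h5 : phi (b + R) p = 0 := by
          rw [map_add, Pi.add_apply, hp3]
          omega
        have h6 : phi (b + R) i = 1 := by
          rw [map_add, Pi.add_apply, hb, hi]
          rfl
        have h7 := v4 (b + R) h3 ⟨i, h6, hi⟩ ⟨p, h5, hp3⟩
        have h8 := v1 b 1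
        rw [one_smul, h7] at h8
        rw [h1, zero_add, h8, ← mul_assoc, ← Units.val_mul]
        simp
    · have h3 : Bin phi b := bin _ h1
      have h4 : phi b p = 1 := (h3 p).resolve_left hp1
      have h5 : D.coeff (b + R) = 0 := by
        by_contra h6
        have h7 := bin _ h6 p
        rw [map_add, Pi.add_apply, hp3, h4] at h7
        omega
      rw [h5, mul_zero, add_zero]
      exact v4 b h3 ⟨p, h4, hp3⟩ ⟨i, hb, hi⟩

/-- The coefficient (class modulo `R` at the load `u`) at the base `b`. -/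
noncomputable def Wc (D : AO ℤ L) (R : L) (u : (RO ℤ)ˣ) (b : L) : RO ℤ :=
  D.coeff b + (u : RO ℤ) * D.coeff (b + R)

theorem csm_wc (D : AO ℤ L) (S R : L) (u0 u1 : (RO ℤ)ˣ) (b : L) :
    csm D S R u0 u1 b = Wc D R u1 b + (u0 : RO ℤ) * Wc D R u1 (b + S) := by
  unfold csm Wc
  ring

/-- The out case: two normal forms of the same type. -/
theorem out_zero {p p' r r' c : RO ℤ} {i j : ℕ} (hi : i ≤ 1) (hj : j ≤ 1)
    {t : RO ℤ} (ht : t ≠ 0) (ht1 : 1 - t ≠ 0)
    (w00 w10 w01 w11 : RO ℤ)
    (h00 : w00 = (if i = 0 ∧ j = 0 then p + c * p' else 0) + (r + c * r'))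
    (h10 : w10 = (if i = 1 ∧ j = 0 then p + c * p' else 0) - (r + c * r'))
    (h01 : w01 = (if i = 0 ∧ j = 1 then p + c * p' else 0) - (r + c * r'))
    (h11 : w11 = (if i = 1 ∧ j = 1 then p + c * p' else 0) + (r + c * r'))
    (k0 : w00 + t * w10 = 0) (k1 : w01 + t * w11 = 0) :
    w00 = 0 ∧ w01 = 0 := by
  have hP : (p + c * p') * t ^ i = 0 := by
    rw [h00, h10] at k0
    rw [h01, h11] at k1
    rcases Nat.le_one_iff_eq_zero_or_eq_one.mp hi with rfl | rfl <;>
      rcases Nat.le_one_iff_eq_zero_or_eq_one.mp hj with rfl | rfl <;>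
      simp at k0 k1 ⊢
    · linear_combination k0 + k1
    · linear_combination k0 + k1
    · have h : (p + c * p') * t = 0 := by linear_combination k0 + k1
      simpa using h
    · have h : (p + c * p') * t = 0 := by linear_combination k0 + k1
      simpa using h
  have hP0 : p + c * p' = 0 := (mul_eq_zero.mp hP).resolve_right (pow_ne_zero _ ht)
  simp only [hP0, ite_self, zero_add, zero_sub] at h00 h10 h01 h11
  have hQ : (r + c * r') * (1 - t) = 0 := by
    rw [h00, h10] at k0
    linear_combination k0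
  have hQ0 : r + c * r' = 0 := (mul_eq_zero.mp hQ).resolve_right ht1
  rw [h00, h01, hQ0]
  simp

/-- (KV_VSR) -/
theorem kvv (hMnf : MnfS) (hMco : McoS) (hV : VcoS) (hF1 : F1S) (hL : LMNS) : KvvS := by
  intro P L _ _ _ _ _ phi D eta S S1 R R1 r i0 i2 nu hD _ hM hT hMR hne hi0 hi2 hnS hnR hkill
  have inj := hD.inj
  have bin := hD.bin
  obtain ⟨hSS1, hA1, hA11, -⟩ := hMco ℤ P L phi D S S1 (eta S) (eta S1) inj bin hM
  have hSb : Bin phi S := bin S hM.r0.1
  have hS1b : Bin phi S1 := bin S1 hM.r1.1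
  have hRb : Bin phi R := bin R hMR.r0.1
  have hSi1 : phi S1 i0 = 0 := (hSS1 i0).resolve_left (by omega)
  have hRi0 : phi R i0 = 0 := (hT.out i0).resolve_right (by rw [hi0]; rintro ⟨h, -⟩; omega)
  have hSi2 : phi S i2 = 0 ∧ phi S1 i2 = 0 := (hT.out i2).resolve_left (by omega)
  -- (a) the value at `S1`
  have ha : nu S1 = 0 := by
    apply hkill S1 hSi1 hSi2.2
    intro h
    have h1 : (eta S1 : RO ℤ) * csm D S R (eta S * tA) (eta R * tA) S1 =
        (1 - (tA : RO ℤ)) * ((eta S : RO ℤ) * D.coeff S - (tA : RO ℤ) * ((eta R : RO ℤ) * r)) := by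
      have e1 : S1 + S = S + S1 := add_comm _ _
      have e2 : S1 + R = R + S1 := add_comm _ _
      have e3 : S + S1 + R = R + S + S1 := by abel
      unfold csm
      rw [e1, e2, e3, Units.val_mul, Units.val_mul]
      linear_combination hA1 + (tA : RO ℤ) * hA11 + (eta R : RO ℤ) * (tA : RO ℤ) * hT.c01 +
        (tA : RO ℤ) * ((eta R : RO ℤ) * (tA : RO ℤ)) * hT.c11
    rw [h, mul_zero] at h1
    rcases mul_eq_zero.mp h1.symm with h2 | h2
    · exact one_sub_tA h2
    · exact hne (sub_eq_zero.mp h2)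
  -- (b)
  by_contra hnu
  have hload : eta R * tA ≠ eta R := by
    intro h
    apply one_sub_tA
    have h1 : ((tA : (RO ℤ)ˣ) : RO ℤ) = 1 := by
      have h2 : (tA : (RO ℤ)ˣ) = 1 := by
        calc (tA : (RO ℤ)ˣ) = (eta R)⁻¹ * (eta R * tA) := by group
          _ = 1 := by rw [h]; group
      rw [h2, Units.val_one]
    rw [h1, sub_self]
  have hmem := hL ℤ P L phi D R R1 (eta R) (eta R1) (eta R * tA) inj bin hMR.r0 hMR.r1 hMR.m0
    hMR.m1 hload
  obtain ⟨b0, hb0, hnb0⟩ : ∃ b, vco (eta R * tA) R D b ≠ 0 ∧ nu b ≠ 0 := by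
    by_contra hcon
    push Not at hcon
    exact hnu (eq_zero_of_supp hD.spn fun a ha' => us_zero hnR hcon a (hmem a ha'))
  obtain ⟨v1, -, -, -, -⟩ := hV ℤ P L phi D R (eta R * tA) inj bin hRb hMR.r0.2.1
  -- the representative without the port `i2`
  obtain ⟨b1, hb1i, hb1, hnb1⟩ : ∃ b, phi b i2 = 0 ∧ Wc D R (eta R * tA) b ≠ 0 ∧ nu b ≠ 0 := by
    refine ⟨b0 + (-(phi b0 i2)) • R, ?_, ?_, ?_⟩
    · rw [map_add, map_zsmul, Pi.add_apply, Pi.smul_apply, hi2]
      simp
    · rw [Wc, ← vco_port hV inj bin hRb hMR.r0.2.1 hi2 (eta R * tA) (b := b0 + (-(phi b0 i2)) • R)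
        (by rw [map_add, map_zsmul, Pi.add_apply, Pi.smul_apply, hi2]; simp), v1]
      exact mul_ne_zero (Units.ne_zero _) hb0
    · rw [map_add, map_zsmul, hnR, smul_zero, add_zero]
      exact hnb0
  have hWbin : ∀ b, Wc D R (eta R * tA) b ≠ 0 → D.coeff b ≠ 0 ∨ D.coeff (b + R) ≠ 0 := by
    intro b hb
    by_contra hcon
    push Not at hcon
    apply hb
    rw [Wc, hcon.1, hcon.2, mul_zero, add_zero]
  -- on the ports outside `R` the exponent `b` is binary
  have hWout : ∀ b, Wc D R (eta R * tA) b ≠ 0 → ∀ p, phi R p = 0 → phi b p = 0 ∨ phi b p = 1 := by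
    intro b hb p hp
    rcases hWbin b hb with h | h
    · exact bin b h p
    · have h1 := bin _ h p
      rwa [map_add, Pi.add_apply, hp, add_zero] at h1
  -- the representative without the ports `i0`, `i2`, with both levels
  obtain ⟨b, hbi0, hbi2, hnb, hWb, hWbS⟩ : ∃ b, phi b i0 = 0 ∧ phi b i2 = 0 ∧ nu b ≠ 0 ∧
      Wc D R (eta R * tA) b ≠ 0 ∧ Wc D R (eta R * tA) (b + S) ≠ 0 := by
    have hsum : ∀ b, phi b i0 = 0 → phi b i2 = 0 → nu b ≠ 0 →
        Wc D R (eta R * tA) b + ((eta S * tA : (RO ℤ)ˣ) : RO ℤ) * Wc D R (eta R * tA) (b + S) =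
          0 := by
      intro b h0 h2 hn
      rw [← csm_wc]
      by_contra h
      exact hn (hkill b h0 h2 h)
    rcases hWout b1 hb1 i0 hRi0 with h | h
    · have h1 := hsum b1 h hb1i hnb1
      refine ⟨b1, h, hb1i, hnb1, hb1, fun h2 => hb1 ?_⟩
      rw [h2, mul_zero, add_zero] at h1
      exact h1
    · have e1 : b1 - S + S = b1 := by abel
      have e2 : phi (b1 - S) i0 = 0 := by
        rw [map_sub, Pi.sub_apply, h, hi0]; rfl
      have e3 : phi (b1 - S) i2 = 0 := by
        rw [map_sub, Pi.sub_apply, hb1i, hSi2.1]; rfl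
      have e4 : nu (b1 - S) ≠ 0 := by
        rw [map_sub, hnS, sub_zero]; exact hnb1
      have h1 := hsum (b1 - S) e2 e3 e4
      rw [e1] at h1
      refine ⟨b1 - S, e2, e3, e4, fun h2 => hb1 ?_, by rw [e1]; exact hb1⟩
      rw [h2, zero_add] at h1
      exact (mul_eq_zero.mp h1).resolve_left (Units.ne_zero _)
  -- `b` is disjoint from `S`
  have hbS : ∀ p, phi S p = 1 → phi b p = 0 := by
    intro p hp
    have hp1 : phi R p = 0 := (hT.out p).resolve_right (by rw [hp]; rintro ⟨h, -⟩; omega)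
    have h1 := hWout b hWb p hp1
    have h2 := hWout (b + S) hWbS p hp1
    rw [map_add, Pi.add_apply, hp] at h2
    omega
  -- `b` meets `S1` in everything or nothing
  have hpart : (∀ p, phi S1 p = 1 → phi b p = 0) ∨ ∀ p, phi S1 p = 1 → phi b p = 1 := by
    by_contra hcon
    push Not at hcon
    obtain ⟨⟨p1, hp1, hp1'⟩, p2, hp2, hp2'⟩ := hcon
    have hR1 : ∀ p, phi S1 p = 1 → phi R p = 0 := fun p hp =>
      (hT.out p).resolve_right (by rw [hp]; rintro ⟨-, h⟩; omega)
    have hb1' : phi b p1 = 1 := (hWout b hWb p1 (hR1 p1 hp1)).resolve_left hp1'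
    have hb2' : phi b p2 = 0 := (hWout b hWb p2 (hR1 p2 hp2)).resolve_right hp2'
    have hSp : ∀ p, phi S1 p = 1 → phi S p = 0 := fun p hp =>
      (hSS1 p).resolve_right (by omega)
    have hin : ∀ c, D.coeff c ≠ 0 → phi c p1 = 1 → phi c p2 = 0 → c ∈ US (eta S1) S1 D := by
      intro c hc h1 h2
      by_contra hout
      exact hc ((hF1 ℤ P L phi D S1 (eta S1) inj bin hS1b hM.r1.2.1 c hout).1 ⟨p1, h1, hp1⟩
        ⟨p2, h2, hp2⟩)
    have hin2 : ∀ c, Wc D R (eta R * tA) c ≠ 0 → phi c p1 = 1 → phi c p2 = 0 →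
        c ∈ US (eta S1) S1 D := by
      intro c hc h1 h2
      rcases hWbin c hc with h | h
      · exact hin c h h1 h2
      · have h3 := hin (c + R) h (by rw [map_add, Pi.add_apply, h1, hR1 p1 hp1]; rfl)
          (by rw [map_add, Pi.add_apply, h2, hR1 p2 hp2]; rfl)
        have h4 := Submodule.sub_mem _ h3 hT.us1
        rwa [add_sub_cancel_right] at h4
    have h1 := hin2 b hWb hb1' hb2'
    have h2 := hin2 (b + S) hWbS (by rw [map_add, Pi.add_apply, hb1', hSp p1 hp1]; rfl)
      (by rw [map_add, Pi.add_apply, hb2', hSp p2 hp2]; rfl)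
    have h3 := Submodule.sub_mem _ h2 h1
    rw [add_sub_cancel_left] at h3
    exact hM.m1 h3
  -- the out case
  have hout : ∀ c, Out phi S S1 c → phi c i2 = 0 → nu c ≠ 0 →
      Wc D R (eta R * tA) c = 0 ∧ Wc D R (eta R * tA) (c + S1) = 0 := by
    intro c hc hci hnc
    have hci0 : phi c i0 = 0 := (hc i0).resolve_right (by rw [hi0]; rintro ⟨h, -⟩; omega)
    have hcR : Out phi S S1 (c + R) := by
      intro p
      rcases hc p with h | h
      · rcases hT.out p with h' | h'
        · left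
          rw [map_add, Pi.add_apply, h, h']; rfl
        · exact Or.inr h'
      · exact Or.inr h
    obtain ⟨i, l, p, r1, hN, hp⟩ := hMnf ℤ P L phi D S S1 (eta S) (eta S1) inj bin hM c hc
    obtain ⟨i', l', p', r1', hN', hp'⟩ :=
      hMnf ℤ P L phi D S S1 (eta S) (eta S1) inj bin hM (c + R) hcR
    have hsmem : S ∈ US (eta S) S D :=
      ⟨1, one_ne_zero, by rw [one_smul]; exact Submodule.subset_span (Set.mem_insert _ _)⟩
    have htmem : S1 ∈ US (eta S1) S1 D :=
      ⟨1, one_ne_zero, by rw [one_smul]; exact Submodule.subset_span (Set.mem_insert _ _)⟩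
    have hty : p ≠ 0 → p' ≠ 0 → i = i' ∧ l = l' := by
      intro h h'
      obtain ⟨m0, m1⟩ := hp h
      obtain ⟨m0', m1'⟩ := hp' h'
      have hi := hN.i1
      have hi' := hN'.i1
      have hl := hN.j1
      have hl' := hN'.j1
      constructor
      · by_contra hii
        apply hM.m1
        have m2 := Submodule.sub_mem _ (Submodule.sub_mem _ m1' hT.us1) m1
        have m3 := Submodule.sub_mem _ m2 (Submodule.sub_mem _ (nsmul_mem htmem l')
          (nsmul_mem htmem l))
        have e1 : c + R + i' • S + l' • S1 - R - (c + i • S + l • S1) - (l' • S1 - l • S1) =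
            i' • S - i • S := by abel
        rw [e1] at m3
        have hcase : (i = 0 ∧ i' = 1) ∨ (i = 1 ∧ i' = 0) := by omega
        rcases hcase with ⟨h1, h2⟩ | ⟨h1, h2⟩
        · rw [h1, h2, one_smul, zero_smul, sub_zero] at m3
          exact m3
        · rw [h1, h2, one_smul, zero_smul, zero_sub] at m3
          exact (Submodule.neg_mem_iff _).mp m3
      · by_contra hll
        apply hM.m0
        have m2 := Submodule.sub_mem _ (Submodule.sub_mem _ m0' hT.us0) m0
        have m3 := Submodule.sub_mem _ m2 (Submodule.sub_mem _ (nsmul_mem hsmem i')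
          (nsmul_mem hsmem i))
        have e1 : c + R + i' • S + l' • S1 - R - (c + i • S + l • S1) - (i' • S - i • S) =
            l' • S1 - l • S1 := by abel
        rw [e1] at m3
        have hcase : (l = 0 ∧ l' = 1) ∨ (l = 1 ∧ l' = 0) := by omega
        rcases hcase with ⟨h1, h2⟩ | ⟨h1, h2⟩
        · rw [h1, h2, one_smul, zero_smul, sub_zero] at m3
          exact m3
        · rw [h1, h2, one_smul, zero_smul, zero_sub] at m3
          exact (Submodule.neg_mem_iff _).mp m3
    -- one type for both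
    obtain ⟨x, y, hx, hy, hNx, hNx'⟩ : ∃ x y : ℕ, x ≤ 1 ∧ y ≤ 1 ∧
        Nf D S S1 (eta S) (eta S1) c x y p r1 ∧ Nf D S S1 (eta S) (eta S1) (c + R) x y p' r1' := by
      by_cases h : p = 0
      · subst h
        refine ⟨i', l', hN'.i1, hN'.j1, ⟨hN'.i1, hN'.j1, ?_, ?_, ?_, ?_⟩, hN'⟩
        · simpa using hN.c00
        · simpa using hN.c10
        · simpa using hN.c01
        · simpa using hN.c11
      · by_cases h' : p' = 0
        · subst h'
          refine ⟨i, l, hN.i1, hN.j1, hN, ⟨hN.i1, hN.j1, ?_, ?_, ?_, ?_⟩⟩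
          · simpa using hN'.c00
          · simpa using hN'.c10
          · simpa using hN'.c01
          · simpa using hN'.c11
        · obtain ⟨rfl, rfl⟩ := hty h h'
          exact ⟨i, l, hN.i1, hN.j1, hN, hN'⟩
    have hcs : csm D S R (eta S * tA) (eta R * tA) c = 0 := by
      by_contra h
      exact hnc (hkill c hci0 hci h)
    have hcs1 : csm D S R (eta S * tA) (eta R * tA) (c + S1) = 0 := by
      by_contra h
      apply hnc
      have h1 := hkill (c + S1) (by rw [map_add, Pi.add_apply, hci0, hSi1]; rfl)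
        (by rw [map_add, Pi.add_apply, hci, hSi2.2]; rfl) h
      rwa [map_add, ha, add_zero] at h1
    rw [csm_wc] at hcs hcs1
    have ers : c + S1 + S = c + S + S1 := by abel
    rw [ers] at hcs1
    have hres := out_zero (p := p) (p' := p') (r := r1) (r' := r1')
      (c := ((eta R * tA : (RO ℤ)ˣ) : RO ℤ)) hx hy (t := (tA : RO ℤ)) (Units.ne_zero _) one_sub_tA
      (Wc D R (eta R * tA) c) ((eta S : RO ℤ) * Wc D R (eta R * tA) (c + S))
      ((eta S1 : RO ℤ) * Wc D R (eta R * tA) (c + S1))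
      ((eta S : RO ℤ) * (eta S1 : RO ℤ) * Wc D R (eta R * tA) (c + S + S1))
      ?_ ?_ ?_ ?_ ?_ ?_
    · refine ⟨hres.1, ?_⟩
      exact (mul_eq_zero.mp hres.2).resolve_left (Units.ne_zero _)
    · rw [Wc, hNx.c00, hNx'.c00]
      by_cases hxy : x = 0 ∧ y = 0
      · rw [if_pos hxy, if_pos hxy, if_pos hxy]; ring
      · rw [if_neg hxy, if_neg hxy, if_neg hxy]; ring
    · have e1 : c + S + R = c + R + S := by abel
      have h1 := hNx.c10
      have h2 := hNx'.c10
      rw [Wc, e1]
      by_cases hxy : x = 1 ∧ y = 0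
      · rw [if_pos hxy] at h1 h2 ⊢
        linear_combination h1 + ((eta R * tA : (RO ℤ)ˣ) : RO ℤ) * h2
      · rw [if_neg hxy] at h1 h2 ⊢
        linear_combination h1 + ((eta R * tA : (RO ℤ)ˣ) : RO ℤ) * h2
    · have e1 : c + S1 + R = c + R + S1 := by abel
      have h1 := hNx.c01
      have h2 := hNx'.c01
      rw [Wc, e1]
      by_cases hxy : x = 0 ∧ y = 1
      · rw [if_pos hxy] at h1 h2 ⊢
        linear_combination h1 + ((eta R * tA : (RO ℤ)ˣ) : RO ℤ) * h2
      · rw [if_neg hxy] at h1 h2 ⊢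
        linear_combination h1 + ((eta R * tA : (RO ℤ)ˣ) : RO ℤ) * h2
    · have e1 : c + S + S1 + R = c + R + S + S1 := by abel
      have h1 := hNx.c11
      have h2 := hNx'.c11
      rw [Wc, e1]
      by_cases hxy : x = 1 ∧ y = 1
      · rw [if_pos hxy] at h1 h2 ⊢
        linear_combination h1 + ((eta R * tA : (RO ℤ)ˣ) : RO ℤ) * h2
      · rw [if_neg hxy] at h1 h2 ⊢
        linear_combination h1 + ((eta R * tA : (RO ℤ)ˣ) : RO ℤ) * h2
    · rw [Units.val_mul] at hcs
      linear_combination hcs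
    · rw [Units.val_mul] at hcs1
      linear_combination (eta S1 : RO ℤ) * hcs1
  rcases hpart with hp | hp
  · refine hWb (hout b ?_ hbi2 hnb).1
    intro p
    rcases hSb p with h | h
    · rcases hS1b p with h' | h'
      · exact Or.inr ⟨h, h'⟩
      · exact Or.inl (hp p h')
    · exact Or.inl (hbS p h)
  · have e1 : b - S1 + S1 = b := by abel
    have h2 := (hout (b - S1) ?_ (by rw [map_sub, Pi.sub_apply, hbi2, hSi2.2]; rfl)
      (by rw [map_sub, ha, sub_zero]; exact hnb)).2
    · rw [e1] at h2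
      exact hWb h2
    · intro p
      rw [map_sub, Pi.sub_apply]
      rcases hSb p with h | h
      · rcases hS1b p with h' | h'
        · exact Or.inr ⟨h, h'⟩
        · left
          rw [hp p h', h']; rfl
      · left
        have h' : phi S1 p = 0 := (hSS1 p).resolve_left (by omega)
        rw [hbS p h, h']; rfl

end

end Pool.Agent.B5.KV.H09
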